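import Pool.Agent.H57.BD.StmtsZ
import Pool.Agent.H42.WG.Fin

set_option autoImplicit false

namespace Pool.BD

open Relation

theorem zf : ZFStmt := by
  intro P G D Z A hF hD hDZ
  have hmem : ∀ (x : P) b, (cgr G D Z A).Adj (some x) b → x ∉ D := by
    rintro x b (⟨x', hx', y, hy, h1, h2, h3⟩ | ⟨z, hz, hd, h | h⟩) hxD
    · have := Option.some.inj h1
      subst this
      rcases hx' with h | h
      · exact (hDZ x hxD).1 h
      · exact (hDZ x hxD).2 h
    · exact absurd h.1 (by simp)
    · have := Option.some.inj h.1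
      subst this
      exact (hDZ x hxD).1 hz
  refine Pool.WG.tfr (Option P) P (cgr G D Z A) G
    (fun a => match a with | none => D | some x => {x}) ?_ ?_ ?_ hF
  · rintro (_ | x) b _
    · exact hD
    · exact Pool.WG.conn_single G x
  · rintro (_ | x) (_ | y) a' b' ha hb hab
    · exact absurd rfl hab
    · show Disjoint D {y}
      rw [Set.disjoint_singleton_right]
      exact hmem y b' hb
    · show Disjoint {x} D
      rw [Set.disjoint_singleton_left]
      exact hmem x a' ha
    · show Disjoint {x} {y}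
      exact Set.disjoint_singleton.2 (fun h => hab (by rw [h]))
  · rintro a b (⟨x, hx, y, hy, rfl, rfl, h3⟩ | ⟨z, hz, ⟨d, hd, hdz⟩, ⟨rfl, rfl⟩ | ⟨rfl, rfl⟩⟩)
    · exact ⟨x, rfl, y, rfl, h3⟩
    · exact ⟨d, hd, z, rfl, hdz⟩
    · exact ⟨z, rfl, d, hd, hdz.symm⟩

end Pool.BD
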