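import Pool.Agent.H42.BD.ZR

set_option autoImplicit false

namespace Pool.BD

open Relation

namespace ZLD

variable {P : Type} [PartialOrder P]

/-- the growing sets -/
def DD (r : P) : ℕ → Set P
  | 0 => {r}
  | i + 1 => if i % 2 = 0 then {x | ∃ d ∈ DD r i, d ≤ x} else {x | ∃ d ∈ DD r i, x ≤ d}

theorem mem_even {r : P} {i : ℕ} (h : i % 2 = 0) (x : P) :
    x ∈ DD r (i + 1) ↔ ∃ d ∈ DD r i, d ≤ x := by
  show x ∈ (if i % 2 = 0 then {x | ∃ d ∈ DD r i, d ≤ x} else {x | ∃ d ∈ DD r i, x ≤ d}) ↔ _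
  rw [if_pos h]; rfl

theorem mem_odd {r : P} {i : ℕ} (h : i % 2 = 1) (x : P) :
    x ∈ DD r (i + 1) ↔ ∃ d ∈ DD r i, x ≤ d := by
  show x ∈ (if i % 2 = 0 then {x | ∃ d ∈ DD r i, d ≤ x} else {x | ∃ d ∈ DD r i, x ≤ d}) ↔ _
  rw [if_neg (by omega)]; rfl

theorem mono1 (r : P) (i : ℕ) : DD r i ⊆ DD r (i + 1) := by
  intro x hx
  rcases Nat.mod_two_eq_zero_or_one i with h | h
  · rw [mem_even h]; exact ⟨x, hx, le_rfl⟩
  · rw [mem_odd h]; exact ⟨x, hx, le_rfl⟩

theorem mono (r : P) {i j : ℕ} (h : i ≤ j) : DD r i ⊆ DD r j := by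
  induction h with
  | refl => exact le_rfl
  | step _ ih => exact ih.trans (mono1 r _)

theorem up {r : P} {i : ℕ} (h : i % 2 = 1) {x y : P} (hx : x ∈ DD r i) (hxy : x ≤ y) :
    y ∈ DD r i := by
  obtain ⟨j, rfl⟩ : ∃ j, i = j + 1 := ⟨i - 1, by omega⟩
  rw [mem_even (by omega)] at hx ⊢
  obtain ⟨d, hd, hdx⟩ := hx
  exact ⟨d, hd, hdx.trans hxy⟩

theorem down {r : P} (hr : ∀ b, b < r → False) {i : ℕ} (h : i % 2 = 0) {x y : P}
    (hy : y ∈ DD r i) (hxy : x ≤ y) : x ∈ DD r i := by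
  rcases Nat.eq_zero_or_pos i with h0 | h0
  · subst h0
    have hy' : y = r := hy
    subst hy'
    rcases hxy.lt_or_eq with h1 | h1
    · exact (hr x h1).elim
    · exact h1
  · obtain ⟨j, rfl⟩ : ∃ j, i = j + 1 := ⟨i - 1, by omega⟩
    rw [mem_odd (by omega)] at hy ⊢
    obtain ⟨d, hd, hdx⟩ := hy
    exact ⟨d, hd, hxy.trans hdx⟩

end ZLD

open ZLD ZR in
theorem zld : ZLDStmt := by
  intro P _ _ r hr
  classical
  obtain ⟨lev, hlev⟩ : ∃ lev : P → ℕ, ∀ x, lev x = sInf {i | x ∈ DD r i} := ⟨_, fun _ => rfl⟩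
  have hle : ∀ x i, x ∈ DD r i → lev x ≤ i := by
    intro x i h
    rw [hlev]; exact Nat.sInf_le h
  have hcover : ∀ x, ReflTransGen (fun x y : P => x ≤ y ∨ y ≤ x) r x → ∃ i, x ∈ DD r i := by
    intro x hx
    induction hx with
    | refl => exact ⟨0, rfl⟩
    | @tail a b _ hab ih =>
      obtain ⟨i, hi⟩ := ih
      rcases hab with hab | hab
      · rcases Nat.mod_two_eq_zero_or_one i with h | h
        · exact ⟨i + 1, (mem_even h b).2 ⟨a, hi, hab⟩⟩
        · exact ⟨i, up h hi hab⟩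
      · rcases Nat.mod_two_eq_zero_or_one i with h | h
        · exact ⟨i, down hr h hi hab⟩
        · exact ⟨i + 1, (mem_odd h b).2 ⟨a, hi, hab⟩⟩
  have hmem : ∀ x, ReflTransGen (fun x y : P => x ≤ y ∨ y ≤ x) r x → x ∈ DD r (lev x) := by
    intro x hx
    obtain ⟨i, hi⟩ := hcover x hx
    rw [hlev]
    exact Nat.sInf_mem (s := {i | x ∈ DD r i}) ⟨i, hi⟩
  have hDC : ∀ i x, x ∈ DD r i → ReflTransGen (fun x y : P => x ≤ y ∨ y ≤ x) r x := by
    intro i
    induction i with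
    | zero => intro x hx; rw [show x = r from hx]
    | succ i ih =>
      intro x hx
      rcases Nat.mod_two_eq_zero_or_one i with h | h
      · obtain ⟨d, hd, hdx⟩ := (mem_even h x).1 hx
        exact ReflTransGen.tail (ih d hd) (Or.inl hdx)
      · obtain ⟨d, hd, hdx⟩ := (mem_odd h x).1 hx
        exact ReflTransGen.tail (ih d hd) (Or.inr hdx)
  have hiff : ∀ x i, ReflTransGen (fun x y : P => x ≤ y ∨ y ≤ x) r x →
      (x ∈ DD r i ↔ lev x ≤ i) := fun x i hx =>
    ⟨hle x i, fun h => mono r h (hmem x hx)⟩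
  have hr0 : lev r = 0 := Nat.le_zero.1 (hle r 0 rfl)
  -- connectivity of the sets
  have hstep : ∀ (i : ℕ) (a b : P), a ≤ b → (∀ c, a ≤ c → c ≤ b → c ∈ DD r i) →
      ∀ (ha : a ∈ DD r i) (hb : b ∈ DD r i),
      ((cov P).induce (DD r i)).Reachable ⟨a, ha⟩ ⟨b, hb⟩ := by
    intro i a b hab hbet ha hb
    have key : ∀ w, ReflTransGen (fun x y : P => x ⋖ y) a w → w ≤ b →
        ∀ hw : w ∈ DD r i, ((cov P).induce (DD r i)).Reachable ⟨a, ha⟩ ⟨w, hw⟩ := by
      intro w hw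
      induction hw with
      | refl => intro _ _; exact SimpleGraph.Reachable.refl _
      | @tail x y hx hxy ih =>
        intro hyb hy
        have hxb := hxy.le.trans hyb
        have hxm : x ∈ DD r i := hbet x (chain_le hx) hxb
        refine (ih hxb hxm).trans (SimpleGraph.Adj.reachable ?_)
        exact (cov_adj hxy)
    exact key b (chain hab) le_rfl hb
  have hconn : ∀ i : ℕ, ∀ x (hx : x ∈ DD r i), ∃ hr : r ∈ DD r i,
      ((cov P).induce (DD r i)).Reachable ⟨r, hr⟩ ⟨x, hx⟩ := by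
    intro i
    induction i with
    | zero =>
      intro x hx
      have hx' : x = r := hx
      subst hx'
      exact ⟨hx, SimpleGraph.Reachable.refl _⟩
    | succ i ih =>
      intro x hx
      have hrm : r ∈ DD r (i + 1) := mono r (Nat.zero_le _) (show r ∈ DD r 0 from rfl)
      refine ⟨hrm, ?_⟩
      have lift : ∀ d (hd : d ∈ DD r i), ((cov P).induce (DD r (i + 1))).Reachable ⟨r, hrm⟩
          ⟨d, mono1 r i hd⟩ := by
        intro d hd
        obtain ⟨hr', h⟩ := ih d hd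
        exact h.map (SimpleGraph.induceHomOfLE (cov P) (mono1 r i)).toHom
      rcases Nat.mod_two_eq_zero_or_one i with h | h
      · obtain ⟨d, hd, hdx⟩ := (mem_even h x).1 hx
        refine (lift d hd).trans (hstep (i + 1) d x hdx ?_ _ _)
        intro c hc _
        exact (mem_even h c).2 ⟨d, hd, hc⟩
      · obtain ⟨d, hd, hdx⟩ := (mem_odd h x).1 hx
        refine (lift d hd).trans (hstep (i + 1) x d hdx ?_ _ _).symm
        intro c _ hc
        exact (mem_odd h c).2 ⟨d, hd, hc⟩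
  refine ⟨lev, ?_⟩
  intro C
  refine ⟨?_, ?_, ?_, ?_, ?_, ?_⟩
  · intro a ha b hab
    have hb : ReflTransGen (fun x y : P => x ≤ y ∨ y ≤ x) r b := ReflTransGen.tail ha (Or.inl hab.le)
    have ma := hmem a ha
    have mb := hmem b hb
    have e1 : lev a % 2 = 1 → lev b ≤ lev a := fun h => hle b _ (up h ma hab.le)
    have e2 : lev a % 2 = 0 → lev b ≤ lev a + 1 := fun h => hle b _ ((mem_even h b).2 ⟨a, ma, hab.le⟩)
    have e3 : lev b % 2 = 0 → lev a ≤ lev b := fun h => hle a _ (down hr h mb hab.le)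
    have e4 : lev b % 2 = 1 → lev a ≤ lev b + 1 := fun h => hle a _ ((mem_odd h a).2 ⟨b, mb, hab.le⟩)
    omega
  · intro a ha
    constructor
    · intro h
      have := hmem a ha
      rw [h] at this
      exact this
    · rintro rfl; exact hr0
  · intro a ha h
    have h1 := hmem a ha
    rw [h] at h1
    obtain ⟨d, hd, hda⟩ := (mem_even (by norm_num) a).1 h1
    have hd' : d = r := hd
    rw [hd'] at hda
    refine lt_of_le_of_ne hda ?_
    rintro rfl
    rw [hr0] at h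
    exact absurd h (by norm_num)
  · intro i hi
    have e : {z | z ∈ C ∧ lev z < i} = DD r (i - 1) := by
      ext z
      constructor
      · rintro ⟨hz, hlt⟩
        exact (hiff z (i - 1) hz).2 (by omega)
      · intro hz
        exact ⟨hDC _ z hz, by have := hle z _ hz; omega⟩
    rw [e]
    have : Nonempty (DD r (i - 1)) :=
      ⟨⟨r, mono r (Nat.zero_le _) (show r ∈ DD r 0 from rfl)⟩⟩
    refine SimpleGraph.Connected.mk ?_
    rintro ⟨x, hx⟩ ⟨y, hy⟩
    obtain ⟨h1, h2⟩ := hconn _ x hx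
    obtain ⟨h3, h4⟩ := hconn _ y hy
    exact h2.symm.trans h4
  · intro a ha hodd
    have h1 := hmem a ha
    obtain ⟨j, hj⟩ : ∃ j, lev a = j + 1 := ⟨lev a - 1, by omega⟩
    rw [hj] at h1
    obtain ⟨d, hd, hda⟩ := (mem_even (by omega) a).1 h1
    refine ⟨d, ?_, hda, ?_⟩
    · have := hle d _ hd; omega
    · intro c hc _
      rw [hj]
      exact hle c _ ((mem_even (by omega) c).2 ⟨d, hd, hc⟩)
  · intro a ha hev hpos
    have h1 := hmem a ha
    obtain ⟨j, hj⟩ : ∃ j, lev a = j + 1 := ⟨lev a - 1, by omega⟩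
    rw [hj] at h1
    obtain ⟨d, hd, hda⟩ := (mem_odd (by omega) a).1 h1
    refine ⟨d, ?_, hda, ?_⟩
    · have := hle d _ hd; omega
    · intro c _ hc
      rw [hj]
      exact hle c _ ((mem_odd (by omega) c).2 ⟨d, hd, hc⟩)

end Pool.BD
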