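import Pool.Agent.H57.BD.StmtsZ

set_option autoImplicit false

namespace Pool.BD

open Relation

theorem zlr : ZLRStmt := by
  intro P _ _
  classical
  have hsym : ∀ a b : P, ReflTransGen (fun x y : P => x ≤ y ∨ y ≤ x) a b →
      ReflTransGen (fun x y : P => x ≤ y ∨ y ≤ x) b a := by
    intro a b h
    induction h with
    | refl => exact ReflTransGen.refl
    | tail _ h2 ih => exact ReflTransGen.head h2.symm ih
  let s : Setoid P := ⟨ReflTransGen (fun x y : P => x ≤ y ∨ y ≤ x),
    fun _ => ReflTransGen.refl, fun h => hsym _ _ h, fun h h' => h.trans h'⟩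
  have hmin : ∀ q : Quotient s, ∃ m : P, (∀ b, ¬ b < m) ∧ m ≤ q.out := by
    intro q
    obtain ⟨m, hm1, hm2⟩ := (Set.toFinite {x : P | x ≤ q.out}).exists_minimal ⟨q.out, le_rfl⟩
    refine ⟨m, fun b hb => ?_, hm1⟩
    exact absurd hb (not_lt_of_ge (hm2 (show b ≤ q.out from hb.le.trans hm1) hb.le))
  choose m hm1 hm2 using hmin
  have hrel : ∀ a : P, ReflTransGen (fun x y : P => x ≤ y ∨ y ≤ x) (m (Quotient.mk s a)) a := by
    intro a
    refine ReflTransGen.head (Or.inl (hm2 (Quotient.mk s a))) ?_
    exact Quotient.exact (Quotient.out_eq (Quotient.mk s a))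
  refine ⟨fun a => m (Quotient.mk s a), ?_, ?_, ?_, hrel⟩
  · intro a b hab
    have : Quotient.mk s a = Quotient.mk s b := Quotient.sound (ReflTransGen.single (Or.inl hab))
    show m _ = m _
    rw [this]
  · intro a
    have : Quotient.mk s (m (Quotient.mk s a)) = Quotient.mk s a := Quotient.sound (hrel a)
    show m _ = m _
    rw [this]
  · intro a b h
    exact hm1 _ b h

end Pool.BD
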