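import Pool.Agent.H57.BD.StmtsZ

set_option autoImplicit false

namespace Pool.BD

open Relation

namespace ZR

theorem lin_ext (P : Type) [Finite P] [PartialOrder P] :
    ∃ lam : P → ℕ, Function.Injective lam ∧ ∀ a b, a < b → lam a < lam b := by
  classical
  have : Fintype P := Fintype.ofFinite P
  have : Fintype (LinearExtension P) := inferInstanceAs (Fintype P)
  let e := Fintype.orderIsoFinOfCardEq (LinearExtension P) rfl
  have hinj : Function.Injective (toLinearExtension : P → LinearExtension P) := fun a b h => h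
  refine ⟨fun a => (e.symm (toLinearExtension a)).val, ?_, ?_⟩
  · intro a b h
    exact hinj (e.symm.injective (Fin.ext h))
  · intro a b h
    have h1 : toLinearExtension a ≤ toLinearExtension b := toLinearExtension.monotone h.le
    have h2 : toLinearExtension a < toLinearExtension b :=
      lt_of_le_of_ne h1 (fun h' => h.ne (hinj h'))
    exact e.symm.lt_iff_lt.2 h2

theorem chain {P : Type} [Finite P] [PartialOrder P] {a b : P} (h : a ≤ b) :
    ReflTransGen (fun x y : P => x ⋖ y) a b := by
  classical
  have : Fintype P := Fintype.ofFinite P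
  let := Fintype.toLocallyFiniteOrder (α := P)
  exact le_iff_reflTransGen_covBy.1 h

theorem chain_le {P : Type} [PartialOrder P] {a b : P}
    (h : ReflTransGen (fun x y : P => x ⋖ y) a b) : a ≤ b := by
  induction h with
  | refl => exact le_rfl
  | tail _ h2 ih => exact ih.trans h2.le

theorem cov_adj {P : Type} [PartialOrder P] {a b : P} (h : a ⋖ b) : (cov P).Adj a b := by
  unfold cov
  rw [SimpleGraph.fromRel_adj]
  exact ⟨h.ne, Or.inl h⟩

theorem cov_adj' {P : Type} [PartialOrder P] {a b : P} (h : (cov P).Adj a b) :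
    a ⋖ b ∨ b ⋖ a := by
  unfold cov at h
  rw [SimpleGraph.fromRel_adj] at h
  exact h.2

end ZR

open ZR in
theorem zr : ZRStmt := by
  intro P _ _ D Z A hD hZ hA
  obtain ⟨lam, hl1, hl2⟩ := lin_ext P
  have rkdef : ∃ rk : Option P → ℕ, rk none = 0 ∧ ∀ x, rk (some x) = lam x + 1 :=
    ⟨fun v => match v with | none => 0 | some x => lam x + 1, rfl, fun _ => rfl⟩
  obtain ⟨rk, hr0, hr1⟩ := rkdef
  have arc : ∀ a b : P, a ∈ Z ∪ A → b ∈ Z ∪ A → a ⋖ b →
      Ar (cgr (cov P) D Z A) rk (some a) (some b) := by
    intro a b ha hb hab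
    refine ⟨Or.inl ⟨a, ha, b, hb, rfl, rfl, cov_adj hab⟩, ?_⟩
    rw [hr1, hr1]
    have := hl2 a b hab.lt
    omega
  have arc' : ∀ (a : P) v, Ar (cgr (cov P) D Z A) rk (some a) v → ∃ b, v = some b ∧ a ⋖ b := by
    rintro a v ⟨h1, h2⟩
    rcases h1 with ⟨x, hx, y, hy, e1, e2, h3⟩ | ⟨z, hz, hd, h | h⟩
    · have := Option.some.inj e1
      subst this
      subst e2
      refine ⟨y, rfl, ?_⟩
      rcases cov_adj' h3 with h4 | h4
      · exact h4
      · have := hl2 _ _ h4.lt
        rw [hr1, hr1] at h2
        omega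
    · exact absurd h.1 (by simp)
    · rw [h.2, hr0] at h2
      exact absurd h2 (Nat.not_lt_zero _)
  refine ⟨rk, ?_, ?_, ?_, ?_⟩
  · rintro (_ | x) (_ | y) h
    · rfl
    · rw [hr0, hr1] at h; omega
    · rw [hr0, hr1] at h; omega
    · rw [hr1, hr1] at h
      rw [hl1 (by omega : lam x = lam y)]
  · rintro (_ | x) h
    · exact absurd rfl h
    · rw [hr0, hr1]; omega
  · intro y hy
    obtain ⟨d, hd, hdy, hbet⟩ := hZ y hy
    have key : ∀ w, ReflTransGen (fun x y : P => x ⋖ y) d w → w ≤ y → w ∈ Z →
        Re (cgr (cov P) D Z A) rk none (some w) := by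
      intro w hw
      induction hw with
      | refl => intro _ h1; exact absurd h1 (hD d hd).1
      | @tail x z hx hxz ih =>
        intro hzy hz
        have hxy : x ≤ y := hxz.le.trans hzy
        rcases hbet x (chain_le hx) hxy with h1 | h1
        · refine ReflTransGen.single ⟨Or.inr ⟨z, hz, ⟨x, h1, cov_adj hxz⟩, Or.inl ⟨rfl, rfl⟩⟩, ?_⟩
          rw [hr0, hr1]; omega
        · exact ReflTransGen.tail (ih hxy h1) (arc x z (Or.inl h1) (Or.inl hz) hxz)
    exact key y (chain hdy) le_rfl hy
  · intro x hx y hy
    constructor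
    · intro h
      have key : ∀ v, Re (cgr (cov P) D Z A) rk (some x) v → ∃ w, v = some w ∧ x ≤ w := by
        intro v hv
        induction hv with
        | refl => exact ⟨x, rfl, le_rfl⟩
        | tail _ h2 ih =>
          obtain ⟨w, rfl, hw⟩ := ih
          obtain ⟨b, rfl, hb⟩ := arc' w _ h2
          exact ⟨b, rfl, hw.trans hb.le⟩
      obtain ⟨w, h1, h2⟩ := key _ h
      rw [Option.some.inj h1]
      exact h2
    · intro hxy
      have key : ∀ w, ReflTransGen (fun x y : P => x ⋖ y) x w → w ≤ y →
          Re (cgr (cov P) D Z A) rk (some x) (some w) := by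
        intro w hw
        induction hw with
        | refl => intro _; exact ReflTransGen.refl
        | @tail a b ha hab ih =>
          intro hby
          have hay := hab.le.trans hby
          have hxa := chain_le ha
          exact ReflTransGen.tail (ih hay) (arc a b (hA x hx y hy a hxa hay)
            (hA x hx y hy b (hxa.trans hab.le) hby) hab)
      exact key y (chain hxy) le_rfl

end Pool.BD
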